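import Pool.Agent.H24.Lib.R_seed8.H137R2.Weak.SetForm
set_option autoImplicit false

/-! The weak Marton theorem in arbitrary abelian groups. -/

open scoped Classical Pointwise
set_option linter.unusedSectionVars false
set_option linter.unusedVariables false

namespace H137.Weak

open H137.PFR H137.TwoPow

variable {Γ : Type*} [AddCommGroup Γ]

theorem weak_marton {K : ℝ} {A : Finset Γ} (hA : A.Nonempty)
    (hK : ((A + A).card : ℝ) ≤ K * A.card) :
    ∃ (P : AddSubgroup Γ) (S T : Finset Γ), Finite P ∧ Nat.card P ≤ A.card ∧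
      (((A : Set Γ) + (P : Set Γ)).ncard : ℝ) ≤ 2 * K ^ 370 * A.card ∧
      (S.card : ℝ) ≤ 480 * Real.log K + 1 ∧ T ⊆ A ∧ (T.card : ℝ) ≤ K ^ 185 ∧
      ∀ a ∈ A, ∃ t ∈ T, ∃ o : Γ, (∃ m : ℕ, Odd m ∧ m • o = 0) ∧
        a - t - o ∈ P ⊔ AddSubgroup.closure (S : Set Γ) := by
  have hc : (0 : ℝ) < A.card := by exact_mod_cast hA.card_pos
  have hK1 : 1 ≤ K := by
    have h1 : (A.card : ℝ) ≤ (A + A).card := by
      exact_mod_cast Finset.card_le_card_add_right hA
    nlinarith
  have hK0 : 0 < K := by linarith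
  have hlogK : 0 ≤ Real.log K := Real.log_nonneg hK1
  have hexp : ∀ n : ℕ, Real.exp (n * Real.log K) = K ^ n := by
    intro n
    rw [Real.exp_nat_mul, Real.exp_log hK0]
  have hw := law_uw hA
  obtain ⟨M, P, hPM, hMfg, hPfin, hPtor, hM, hPb, hNne, hNb⟩ :=
    exists_pair hw (fun ω : A => (ω : Γ))
  have hκ := kap_uw hA hK1 hK
  rw [Hg_uw hA] at hPb
  -- covering by cosets of `M`
  obtain ⟨T, hTA, hT, hTcov⟩ := cover_cosets hA hK0 hK M (h := 184 * Real.log K) (by linarith)
  have hT' : (T.card : ℝ) ≤ K ^ 185 := by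
    refine hT.trans (le_of_eq ?_)
    have h1 := hexp 184
    push_cast at h1
    rw [h1]
    ring
  -- almost periodicity
  have hPL : Real.log (Nat.card P) + hh (uw A) (fun ω : A => (ω : Γ)) P ≤
      Real.log A.card + 184 * Real.log K := by linarith
  have hPpos : (0 : ℝ) < Nat.card P := by exact_mod_cast Nat.card_pos
  set PF : Finset Γ := (Set.toFinite (P : Set Γ)).toFinset with hPFdef
  have hPF : ∀ x, x ∈ PF ↔ x ∈ P := fun x => by
    rw [hPFdef, Set.Finite.mem_toFinset]
    rfl
  have hper := periodic hA hK1 hK P (by positivity) hPL PF hPF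
  have hper' : ((A + PF).card : ℝ) ≤ 2 * K ^ 370 * A.card := by
    refine hper.trans (le_of_eq ?_)
    have h1 := hexp 368
    push_cast at h1
    have h2 : 2 * (184 * Real.log K) = 368 * Real.log K := by ring
    rw [h2, h1]
    ring
  -- shrinking `P`
  obtain ⟨P', hP'P, hP'card, hP'alt⟩ := shrink P hPtor A.card hA.card_pos.ne'
  have hP'fin : Finite P' := Finite.Set.subset (P : Set Γ) hP'P
  have hP'pos : 0 < Nat.card P' := Nat.card_pos
  have hmulP : Nat.card P' * P'.relIndex P = Nat.card P := by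
    have h1 := AddSubgroup.relIndex_mul_relIndex ⊥ P' P bot_le hP'P
    rw [AddSubgroup.relIndex_bot_left, AddSubgroup.relIndex_bot_left] at h1
    exact h1
  have hrel0 : P'.relIndex P ≠ 0 := by
    intro h
    rw [h, mul_zero] at hmulP
    have h1 : 0 < Nat.card P := Nat.card_pos
    omega
  have hrelb : Real.log (P'.relIndex P) ≤ 184 * Real.log K + Real.log 2 := by
    rcases hP'alt with h | h
    · rw [h, AddSubgroup.relIndex_self, Nat.cast_one, Real.log_one]
      have : 0 ≤ Real.log 2 := Real.log_nonneg (by norm_num)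
      linarith
    · have h1 : P'.relIndex P * A.card ≤ 2 * Nat.card P := by
        rw [← hmulP]
        calc P'.relIndex P * A.card ≤ P'.relIndex P * (2 * Nat.card P') :=
              Nat.mul_le_mul_left _ h.le
          _ = 2 * (Nat.card P' * P'.relIndex P) := by ring
      have h2 : (P'.relIndex P : ℝ) * A.card ≤ 2 * Nat.card P := by exact_mod_cast h1
      have hpos : (0 : ℝ) < P'.relIndex P := by exact_mod_cast Nat.pos_of_ne_zero hrel0
      have h3 := Real.log_le_log (by positivity) h2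
      rw [Real.log_mul hpos.ne' hc.ne', Real.log_mul (by norm_num) hPpos.ne'] at h3
      have h4 := hh_nonneg hw (fun ω : A => (ω : Γ)) P
      linarith
  -- the index of `P' + 2 M`
  set N := P ⊔ M.map (dbl Γ) with hN
  set N' := P' ⊔ M.map (dbl Γ) with hN'
  have hNM : N ≤ M := by
    refine sup_le hPM ?_
    intro x hx
    obtain ⟨y, hy, rfl⟩ := AddSubgroup.mem_map.1 hx
    exact M.add_mem hy hy
  have hN'N : N' ≤ N := sup_le_sup_right hP'P _
  have hNN'dvd : N'.relIndex N ∣ P'.relIndex P := by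
    have h1 : N = P ⊔ N' := by
      rw [hN, hN', ← sup_assoc, sup_eq_left.2 hP'P]
    rw [h1, AddSubgroup.relIndex_sup_right]
    exact AddSubgroup.relIndex_dvd_of_le_left _ le_sup_left
  have hN'N0 : N'.relIndex N ≠ 0 := by
    intro h
    rw [h] at hNN'dvd
    exact hrel0 (Nat.eq_zero_of_zero_dvd hNN'dvd)
  have hmulN := AddSubgroup.relIndex_mul_relIndex N' N M hN'N hNM
  have hN'M0 : N'.relIndex M ≠ 0 := by
    rw [← hmulN]
    exact mul_ne_zero hN'N0 hNne
  have hN'Mb : Real.log (N'.relIndex M) ≤ 331 * Real.log K + Real.log 2 := by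
    rw [← hmulN, Nat.cast_mul, Real.log_mul (by exact_mod_cast hN'N0) (by exact_mod_cast hNne)]
    have h1 : Real.log (N'.relIndex N) ≤ Real.log (P'.relIndex P) :=
      Real.log_le_log (by exact_mod_cast Nat.pos_of_ne_zero hN'N0)
        (by exact_mod_cast Nat.le_of_dvd (Nat.pos_of_ne_zero hrel0) hNN'dvd)
    linarith
  obtain ⟨S, hS, hgen⟩ := gen_final (hP'P.trans hPM) hMfg (fun x hx => hPtor x (hP'P hx)) hN'M0
  refine ⟨P', S, T, hP'fin, hP'card, ?_, ?_, hTA, hT', ?_⟩
  · refine le_trans ?_ hper'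
    have h1 : (A : Set Γ) + (P' : Set Γ) ⊆ ((A + PF : Finset Γ) : Set Γ) := by
      rw [Finset.coe_add]
      refine Set.add_subset_add_left ?_
      intro x hx
      exact Finset.mem_coe.2 ((hPF x).2 (hP'P hx))
    have h2 := Set.ncard_le_ncard h1 (Finset.finite_toSet _)
    rw [Set.ncard_coe_finset] at h2
    exact_mod_cast h2
  · have h1 : (2 : ℝ) ^ S.card ≤ N'.relIndex M := by exact_mod_cast hS
    have h2 := Real.log_le_log (by positivity) h1
    rw [Real.log_pow] at h2
    have h3 : (0.69 : ℝ) < Real.log 2 := by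
      have := Real.log_two_gt_d9
      linarith
    have h4 : (S.card : ℝ) * Real.log 2 ≤ (480 * Real.log K + 1) * Real.log 2 := by
      have h5 : 331 * Real.log K ≤ 480 * Real.log K * Real.log 2 := by nlinarith
      linarith
    exact le_of_mul_le_mul_right h4 (by linarith)
  · intro a ha
    obtain ⟨t, ht, hat⟩ := hTcov a ha
    obtain ⟨o, ho, hmem⟩ := hgen _ hat
    exact ⟨t, ht, o, ho, hmem⟩

end H137.Weak
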