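import Pool.Agent.H24.Lib.R_seed8.H137R2.Weak.Ent
set_option autoImplicit false

/-! Entropy inequalities for group valued random variables, and the stage lemma. -/

open scoped Classical
set_option linter.unusedSectionVars false
set_option linter.unusedVariables false

namespace H137.Weak

open H137.PFR H137.TwoPow

variable {Ω Ω' : Type*} [Fintype Ω] [Fintype Ω'] {G Q : Type*} [AddCommGroup G] [AddCommGroup Q]

/-- Ruzsa doubling of a random variable -/
noncomputable def kap (w : Ω → ℝ) (X : Ω → G) : ℝ :=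
  Hg (prod w w) (fun p => X p.1 - X p.2) - Hg w X

theorem Hg_le_sub {w : Ω → ℝ} {w' : Ω' → ℝ} (hw : Law w) (hw' : Law w') (X : Ω → G)
    (Y : Ω' → G) : Hg w X ≤ Hg (prod w w') (fun p => X p.1 - Y p.2) := by
  have hl := law_prod hw hw'
  have h1 := Hg_prod hw hw' X Y
  have h2 : Hg (prod w w') (fun p => (X p.1, Y p.2)) ≤
      Hg (prod w w') (fun p => X p.1 - Y p.2) + Hg (prod w w') (fun p => Y p.2) := by
    refine Hg_add_of hl fun p q h3 h4 => ?_
    rw [h4] at h3
    exact Prod.ext (sub_left_inj.1 h3) h4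
  rw [Hg_snd hw hw' Y] at h2
  linarith

theorem kap_nonneg {w : Ω → ℝ} (hw : Law w) (X : Ω → G) : 0 ≤ kap w X := by
  have := Hg_le_sub hw hw X X
  unfold kap
  linarith

theorem kap_hom {w : Ω → ℝ} (hw : Law w) (X : Ω → G) (φ : G →+ Q) :
    kap w (fun ω => φ (X ω)) ≤ kap w X := by
  have hl := law_prod hw hw
  have h1 : Hg (prod w w) (fun p => (X p.1, X p.2)) +
      Hg (prod w w) (fun p => φ (X p.1) - φ (X p.2)) ≤
      Hg (prod w w) (fun p => X p.1 - X p.2) +
      Hg (prod w w) (fun p => (φ (X p.1), X p.2)) := by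
    refine Hg_sub_of hl ?_ ?_ ?_
    · intro p q h
      rw [← map_sub, ← map_sub, h]
    · intro p q h
      simp only [Prod.mk.injEq] at h
      rw [h.1, h.2]
    · intro p q h3 h4
      simp only [Prod.mk.injEq] at h4
      rw [h4.2] at h3
      exact Prod.ext (sub_left_inj.1 h3) h4.2
  have h2 := Hg_prod hw hw (fun ω => φ (X ω)) X
  have h3 := Hg_prod hw hw X X
  unfold kap
  linarith

theorem Hg_dilate {w : Ω → ℝ} (hw : Law w) (X : Ω → G) :
    Hg (prod w w) (fun p => X p.1 - (X p.2 + X p.2)) ≤ Hg w X + 3 * kap w X := by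
  have hl := law_prod (law_prod hw hw) hw
  have hfull := Hg_prod3 hw hw hw X X X
  -- three-fold difference
  have a1 : Hg (prod (prod w w) w) (fun p => ((X p.1.1, X p.1.2), X p.2)) +
      Hg (prod (prod w w) w) (fun p => X p.1.1 - X p.1.2 - X p.2) ≤
      Hg (prod (prod w w) w) (fun p => (X p.1.1 - X p.1.2, X p.2)) +
      Hg (prod (prod w w) w) (fun p => (X p.1.1 - X p.2, X p.1.2)) := by
    refine Hg_sub_of hl ?_ ?_ ?_
    · intro p q h
      simp only [Prod.mk.injEq] at h
      rw [h.1, h.2]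
    · intro p q h
      simp only [Prod.mk.injEq] at h
      rw [sub_right_comm, sub_right_comm (X q.1.1), h.1, h.2]
    · intro p q h3 h4
      simp only [Prod.mk.injEq] at h3 h4
      have h5 : X p.1.1 = X q.1.1 := by
        have := h3.1
        rw [h4.2] at this
        exact sub_left_inj.1 this
      exact Prod.ext (Prod.ext h5 h4.2) h3.2
  have a2 := Hg_add_of hl (X := fun p : (Ω × Ω) × Ω => X p.1.1 - X p.1.2)
    (Y := fun p : (Ω × Ω) × Ω => X p.2)
    (W := fun p : (Ω × Ω) × Ω => (X p.1.1 - X p.1.2, X p.2))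
    (fun p q h3 h4 => Prod.ext h3 h4)
  have a3 := Hg_add_of hl (X := fun p : (Ω × Ω) × Ω => X p.1.1 - X p.2)
    (Y := fun p : (Ω × Ω) × Ω => X p.1.2)
    (W := fun p : (Ω × Ω) × Ω => (X p.1.1 - X p.2, X p.1.2))
    (fun p q h3 h4 => Prod.ext h3 h4)
  have a4 : Hg (prod (prod w w) w) (fun p => X p.1.1 - X p.1.2) =
      Hg (prod w w) (fun p => X p.1 - X p.2) :=
    Hg_12 hw hw hw (fun p : Ω × Ω => X p.1 - X p.2)
  have a5 : Hg (prod (prod w w) w) (fun p => X p.1.1 - X p.2) =
      Hg (prod w w) (fun p => X p.1 - X p.2) :=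
    Hg_13 hw hw hw (fun p : Ω × Ω => X p.1 - X p.2)
  have a6 : Hg (prod (prod w w) w) (fun p => X p.2) = Hg w X := Hg_snd (law_prod hw hw) hw X
  have a7 : Hg (prod (prod w w) w) (fun p => X p.1.2) = Hg w X := by
    rw [Hg_12 hw hw hw (fun p : Ω × Ω => X p.2), Hg_snd hw hw X]
  -- dilate
  have b1 : Hg (prod (prod w w) w) (fun p => ((X p.1.1, X p.1.2), X p.2)) +
      Hg (prod (prod w w) w) (fun p => X p.1.1 - (X p.1.2 + X p.1.2)) ≤
      Hg (prod (prod w w) w) (fun p => (X p.1.1 - X p.1.2 - X p.2, X p.2 - X p.1.2)) +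
      Hg (prod (prod w w) w) (fun p => (X p.1.1, X p.1.2)) := by
    refine Hg_sub_of hl ?_ ?_ ?_
    · intro p q h
      simp only [Prod.mk.injEq] at h
      have e1 : X p.1.1 - (X p.1.2 + X p.1.2) =
        (X p.1.1 - X p.1.2 - X p.2) + (X p.2 - X p.1.2) := by abel
      have e2 : X q.1.1 - (X q.1.2 + X q.1.2) =
        (X q.1.1 - X q.1.2 - X q.2) + (X q.2 - X q.1.2) := by abel
      rw [e1, e2, h.1, h.2]
    · intro p q h
      simp only [Prod.mk.injEq] at h
      rw [h.1, h.2]
    · intro p q h3 h4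
      simp only [Prod.mk.injEq] at h3 h4
      have h5 : X p.2 = X q.2 := by
        have := h3.2
        rw [h4.2] at this
        exact sub_left_inj.1 this
      exact Prod.ext (Prod.ext h4.1 h4.2) h5
  have b2 := Hg_add_of hl (X := fun p : (Ω × Ω) × Ω => X p.1.1 - X p.1.2 - X p.2)
    (Y := fun p : (Ω × Ω) × Ω => X p.2 - X p.1.2)
    (W := fun p : (Ω × Ω) × Ω => (X p.1.1 - X p.1.2 - X p.2, X p.2 - X p.1.2))
    (fun p q h3 h4 => Prod.ext h3 h4)
  have b4 : Hg (prod (prod w w) w) (fun p => X p.2 - X p.1.2) =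
      Hg (prod w w) (fun p => X p.1 - X p.2) := by
    rw [Hg_23 hw hw hw (fun p : Ω × Ω => X p.2 - X p.1), Hg_swap hw hw]
  have b5 : Hg (prod (prod w w) w) (fun p => (X p.1.1, X p.1.2)) = Hg w X + Hg w X := by
    rw [Hg_12 hw hw hw (fun p : Ω × Ω => (X p.1, X p.2)), Hg_prod hw hw]
  have b6 : Hg (prod (prod w w) w) (fun p => X p.1.1 - (X p.1.2 + X p.1.2)) =
      Hg (prod w w) (fun p => X p.1 - (X p.2 + X p.2)) :=
    Hg_12 hw hw hw (fun p : Ω × Ω => X p.1 - (X p.2 + X p.2))
  unfold kap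
  linarith

/-- selection of a good fibre of a function `C` such that `X - X'` and `C'` determine `C` -/
theorem select {w : Ω → ℝ} (hw : Law w) (X : Ω → G) {γ : Type*} [Fintype γ] (C : Ω → γ) :
    ∃ c : γ, push w C c ≠ 0 ∧
      Hg (prod w (cw w C c)) (fun p => X p.1 - X p.2.1) - Hg (cw w C c) (fun ω => X ω.1) / 2 ≤
        (Hg (prod w w) (fun p => (X p.1 - X p.2, C p.2)) - Hg w C) -
          (Hg w (fun ω => (X ω, C ω)) - Hg w C) / 2 := by
  have hp : Law (push w C) := law_push hw C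
  have h1 := Hg_chain hw hw (fun p : Ω × Ω => X p.1 - X p.2) C
  have hunit : Law (fun _ : Unit => (1 : ℝ)) := ⟨fun _ => zero_le_one, by simp⟩
  have h2 : Hg w (fun ω => (X ω, C ω)) = Hg w C +
      ∑ c, push w C c * Hg (cw w C c) (fun ω => X ω.1) := by
    have h3 := Hg_chain hunit hw (fun p : Unit × Ω => X p.2) C
    have h4 : Hg (prod (fun _ : Unit => (1 : ℝ)) w) (fun p => (X p.2, C p.2)) =
        Hg w (fun ω => (X ω, C ω)) := Hg_snd hunit hw (fun ω => (X ω, C ω))
    rw [← h4, h3]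
    congr 1
    refine Finset.sum_congr rfl fun c _ => ?_
    by_cases hc : push w C c = 0
    · rw [hc, zero_mul, zero_mul]
    · congr 1
      exact Hg_snd hunit (law_cw hw C hc) (fun ω => X ω.1)
  by_contra hcon
  push Not at hcon
  set R := (Hg (prod w w) (fun p => (X p.1 - X p.2, C p.2)) - Hg w C) -
          (Hg w (fun ω => (X ω, C ω)) - Hg w C) / 2 with hR
  set F : γ → ℝ := fun c => Hg (prod w (cw w C c)) (fun p => X p.1 - X p.2.1) -
    Hg (cw w C c) (fun ω => X ω.1) / 2 with hF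
  have h7 : ∀ y, push w C y * R ≤ push w C y * F y := by
    intro y
    by_cases h : push w C y = 0
    · rw [h, zero_mul, zero_mul]
    · exact mul_le_mul_of_nonneg_left (hcon y h).le (hp.1 y)
  obtain ⟨y₀, hy₀⟩ : ∃ y, push w C y ≠ 0 := by
    by_contra h
    push Not at h
    have h8 := hp.2
    rw [Finset.sum_eq_zero (fun y _ => h y)] at h8
    exact absurd h8 (by norm_num)
  have h8 : ∑ y, push w C y * R < ∑ y, push w C y * F y := by
    refine Finset.sum_lt_sum (fun y _ => h7 y) ⟨y₀, Finset.mem_univ _, ?_⟩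
    exact mul_lt_mul_of_pos_left (hcon y₀ hy₀) (lt_of_le_of_ne (hp.1 y₀) (Ne.symm hy₀))
  rw [← Finset.sum_mul, hp.2, one_mul] at h8
  have h9 : ∑ y, push w C y * F y =
      ∑ y, push w C y * Hg (prod w (cw w C y)) (fun p => X p.1 - X p.2.1) -
      (∑ y, push w C y * Hg (cw w C y) (fun ω => X ω.1)) / 2 := by
    rw [Finset.sum_div, ← Finset.sum_sub_distrib]
    refine Finset.sum_congr rfl fun y _ => ?_
    simp only [hF]
    ring
  rw [h9] at h8
  linarith

/-- bound for the right hand side of the selection inequality -/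
theorem fibring {w : Ω → ℝ} (hw : Law w) (X : Ω → G) (π : G →+ Q) :
    Hg (prod w w) (fun p => (X p.1 - X p.2, π (X p.2))) ≤
      Hg w X + Hg w (fun ω => π (X ω)) + (kap w X - kap w (fun ω => π (X ω))) := by
  have hl := law_prod hw hw
  have h1 : Hg (prod w w) (fun p => (X p.1 - X p.2, π (X p.2))) +
      Hg (prod w w) (fun p => π (X p.1) - π (X p.2)) ≤
      Hg (prod w w) (fun p => X p.1 - X p.2) +
      Hg (prod w w) (fun p => (π (X p.1), π (X p.2))) := by
    refine Hg_sub_of hl ?_ ?_ ?_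
    · intro p q h
      rw [← map_sub, ← map_sub, h]
    · intro p q h
      simp only [Prod.mk.injEq] at h
      rw [h.1, h.2]
    · intro p q h3 h4
      simp only [Prod.mk.injEq] at h4
      exact Prod.ext h3 h4.2
  have h2 := Hg_prod hw hw (fun ω => π (X ω)) (fun ω => π (X ω))
  unfold kap
  linarith

end H137.Weak
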