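import Pool.Agent.H24.Lib.R_seed8.H137R2.Weak.Period
set_option autoImplicit false

/-! Set form of the weak Marton theorem. -/

open scoped Classical Pointwise
set_option linter.unusedSectionVars false
set_option linter.unusedVariables false

namespace H137.Weak

open H137.PFR H137.TwoPow

variable {Γ : Type*} [AddCommGroup Γ]

theorem shrink (P : AddSubgroup Γ) [Finite P] (hP : ∀ x ∈ P, ∃ k : ℕ, (2 ^ k) • x = 0) (n : ℕ)
    (hn : n ≠ 0) :
    ∃ P' ≤ P, Nat.card P' ≤ n ∧ (P' = P ∨ n < 2 * Nat.card P') := by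
  by_cases hcase : Nat.card P ≤ n
  · exact ⟨P, le_refl _, hcase, Or.inl rfl⟩
  · push Not at hcase
    have hpg : IsPGroup 2 (Multiplicative P) := by
      intro g
      obtain ⟨k, hk⟩ := hP _ (Multiplicative.toAdd g).2
      refine ⟨k, ?_⟩
      have h1 : (2 ^ k) • (Multiplicative.toAdd g) = 0 := by
        apply Subtype.ext
        rw [AddSubgroup.coe_nsmul, AddSubgroup.coe_zero]
        exact hk
      exact congrArg Multiplicative.ofAdd h1
    have h1 : 2 ^ (Nat.log 2 n) ≤ n := Nat.pow_log_le_self 2 hn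
    have h2 : n < 2 ^ (Nat.log 2 n + 1) := Nat.lt_pow_succ_log_self (by norm_num) _
    have h3 : 2 ^ (Nat.log 2 n) ≤ Nat.card (Multiplicative P) := h1.trans hcase.le
    obtain ⟨Q, hQ⟩ := Sylow.exists_subgroup_card_pow_prime_of_le_card Nat.prime_two hpg h3
    have hcard : Nat.card ((Subgroup.toAddSubgroup' Q).map P.subtype) = 2 ^ (Nat.log 2 n) := by
      rw [AddSubgroup.card_map_of_injective P.subtype_injective]
      exact hQ
    refine ⟨(Subgroup.toAddSubgroup' Q).map P.subtype, ?_, ?_, Or.inr ?_⟩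
    · intro x hx
      obtain ⟨y, _, rfl⟩ := AddSubgroup.mem_map.1 hx
      exact y.2
    · rw [hcard]
      exact h1
    · rw [hcard]
      rw [pow_succ] at h2
      omega

/-- splitting off the odd part -/
theorem split_odd (P : AddSubgroup Γ) {z : Γ} {m k : ℕ} (hm : Odd m) (h1 : m • z ∈ P)
    (h2 : (2 ^ k) • (m • z) = 0) : ∃ o : Γ, m • o = 0 ∧ z - o ∈ P := by
  have hcop : IsCoprime (m : ℤ) ((2 ^ k : ℕ) : ℤ) := by
    rw [Nat.isCoprime_iff_coprime]
    exact Nat.Coprime.pow_right k (Nat.coprime_two_right.2 hm)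
  obtain ⟨u, v, huv⟩ := hcop
  refine ⟨(v * ((2 ^ k : ℕ) : ℤ)) • z, ?_, ?_⟩
  · have h3 : m • ((v * ((2 ^ k : ℕ) : ℤ)) • z) = v • ((2 ^ k) • (m • z)) := by
      rw [← natCast_zsmul, ← natCast_zsmul, ← natCast_zsmul, smul_smul, smul_smul, smul_smul]
      congr 1
      ring
    rw [h3, h2, smul_zero]
  · have h3 : z - (v * ((2 ^ k : ℕ) : ℤ)) • z = u • (m • z) := by
      rw [← natCast_zsmul, smul_smul]
      have h4 : z = (u * m + v * ((2 ^ k : ℕ) : ℤ)) • z := by rw [huv, one_smul]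
      have h5 : z - (v * ((2 ^ k : ℕ) : ℤ)) • z =
          (u * m + v * ((2 ^ k : ℕ) : ℤ)) • z - (v * ((2 ^ k : ℕ) : ℤ)) • z := by
        rw [← h4]
      rw [h5, ← sub_smul, add_sub_cancel_right]
    rw [h3]
    exact P.zsmul_mem h1 u

theorem comap_range_dbl (P M : AddSubgroup Γ) (hPM : P ≤ M) :
    (dbl (M ⧸ P.addSubgroupOf M)).range.comap (QuotientAddGroup.mk' (P.addSubgroupOf M)) =
      (P ⊔ M.map (dbl Γ)).addSubgroupOf M := by
  ext x
  rw [AddSubgroup.mem_comap, AddSubgroup.mem_addSubgroupOf, AddSubgroup.mem_sup]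
  constructor
  · rintro ⟨y, hy⟩
    obtain ⟨y, rfl⟩ := QuotientAddGroup.mk_surjective y
    rw [dbl_apply, ← QuotientAddGroup.mk_add] at hy
    have h1 : ((y + y : M) : M ⧸ P.addSubgroupOf M) = (x : M ⧸ P.addSubgroupOf M) := hy
    rw [QuotientAddGroup.eq, AddSubgroup.mem_addSubgroupOf] at h1
    refine ⟨_, h1, (y : Γ) + y, AddSubgroup.mem_map.2 ⟨y, y.2, rfl⟩, ?_⟩
    push_cast
    abel
  · rintro ⟨p, hp, z, hz, hpz⟩
    obtain ⟨y, hy, rfl⟩ := AddSubgroup.mem_map.1 hz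
    refine ⟨((⟨y, hy⟩ : M) : M ⧸ P.addSubgroupOf M), ?_⟩
    rw [dbl_apply, ← QuotientAddGroup.mk_add]
    change (((⟨y, hy⟩ + ⟨y, hy⟩ : M)) : M ⧸ P.addSubgroupOf M) = (x : M ⧸ P.addSubgroupOf M)
    rw [QuotientAddGroup.eq, AddSubgroup.mem_addSubgroupOf]
    have h1 : (((-(⟨y, hy⟩ + ⟨y, hy⟩) + x : M)) : Γ) = p := by
      push_cast
      rw [← hpz, dbl_apply]
      abel
    rw [h1]
    exact hp

/-- generators of `M` modulo `P` and odd torsion -/
theorem gen_final {M P : AddSubgroup Γ} (hPM : P ≤ M) (hM : M.FG)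
    (hP : ∀ x ∈ P, ∃ k : ℕ, (2 ^ k) • x = 0) (hne : (P ⊔ M.map (dbl Γ)).relIndex M ≠ 0) :
    ∃ S : Finset Γ, 2 ^ S.card ≤ (P ⊔ M.map (dbl Γ)).relIndex M ∧
      ∀ a ∈ M, ∃ o : Γ, (∃ m : ℕ, Odd m ∧ m • o = 0) ∧
        a - o ∈ P ⊔ AddSubgroup.closure (S : Set Γ) := by
  have hMfg : AddGroup.FG M := (AddGroup.fg_iff_addSubgroup_fg M).2 hM
  have hQfg : AddGroup.FG (M ⧸ P.addSubgroupOf M) := inferInstance
  have hidx : (dbl (M ⧸ P.addSubgroupOf M)).range.index = (P ⊔ M.map (dbl Γ)).relIndex M := by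
    rw [AddSubgroup.relIndex, ← comap_range_dbl P M hPM,
      AddSubgroup.index_comap_of_surjective _ (QuotientAddGroup.mk'_surjective _)]
  obtain ⟨S, hS, hgen⟩ := rank_gen (Q := M ⧸ P.addSubgroupOf M) (by rw [hidx]; exact hne)
  rw [hidx] at hS
  set L : M ⧸ P.addSubgroupOf M → Γ := fun c => ((Quotient.out c : M) : Γ) with hL
  refine ⟨S.image L, ?_, ?_⟩
  · exact le_trans (Nat.pow_le_pow_right (by norm_num) Finset.card_image_le) hS
  · intro a ha
    obtain ⟨m, hm, y, hy, hmy⟩ := hgen ((⟨a, ha⟩ : M) : M ⧸ P.addSubgroupOf M)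
    -- lift `y`
    have hlift : ∀ y ∈ AddSubgroup.closure (S : Set (M ⧸ P.addSubgroupOf M)),
        ∃ z : M, (z : M ⧸ P.addSubgroupOf M) = y ∧
          (z : Γ) ∈ AddSubgroup.closure ((S.image L : Finset Γ) : Set Γ) := by
      intro y hy
      induction hy using AddSubgroup.closure_induction with
      | mem x hx =>
        refine ⟨Quotient.out x, Quotient.out_eq x, AddSubgroup.subset_closure ?_⟩
        exact Finset.mem_coe.2 (Finset.mem_image.2 ⟨x, Finset.mem_coe.1 hx, rfl⟩)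
      | zero => exact ⟨0, rfl, AddSubgroup.zero_mem _⟩
      | add x y _ _ hx hy =>
        obtain ⟨z1, h1, h2⟩ := hx
        obtain ⟨z2, h3, h4⟩ := hy
        exact ⟨z1 + z2, by rw [QuotientAddGroup.mk_add, h1, h3], AddSubgroup.add_mem _ h2 h4⟩
      | neg x _ hx =>
        obtain ⟨z1, h1, h2⟩ := hx
        exact ⟨-z1, by rw [QuotientAddGroup.mk_neg, h1], AddSubgroup.neg_mem _ h2⟩
    obtain ⟨z, hz, hzS⟩ := hlift y hy
    have h1 : m • (a - (z : Γ)) ∈ P := by
      rw [← hz, ← QuotientAddGroup.mk_sub, ← QuotientAddGroup.mk_nsmul,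
        QuotientAddGroup.eq_zero_iff, AddSubgroup.mem_addSubgroupOf] at hmy
      exact hmy
    obtain ⟨k, hk⟩ := hP _ h1
    obtain ⟨o, ho, hzo⟩ := split_odd P hm h1 hk
    refine ⟨o, ⟨m, hm, ho⟩, ?_⟩
    have h2 : a - o = (a - z - o) + z := by abel
    rw [h2]
    exact AddSubgroup.add_mem_sup hzo hzS

end H137.Weak
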