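import Pool.Agent.H24.Lib.R_seed8.H137R2.Weak.LemS
set_option autoImplicit false

/-! The stage lemma for random variables. -/

open scoped Classical
set_option linter.unusedSectionVars false
set_option linter.unusedVariables false

namespace H137.Weak

open H137.PFR H137.TwoPow

variable {Ω Ωc : Type*} [Fintype Ω] [Fintype Ωc] {G : Type*} [AddCommGroup G]

/-- doubling of a fibre -/
theorem fibre_dbl {w : Ω → ℝ} {wc : Ωc → ℝ} (hw : Law w) (hwc : Law wc) (X : Ω → G) (Z : Ωc → G)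
    (W : AddSubgroup G) (hZ : ∀ ω ω', (Z ω : G ⧸ W) = Z ω') :
    Hg (prod wc wc) (fun p => Z p.1 - Z p.2) + Hg w X + Hg w (fun ω => (X ω : G ⧸ W)) ≤
      2 * Hg (prod w wc) (fun p => X p.1 - Z p.2) := by
  have hl := law_prod (law_prod hwc hwc) hw
  have hfull := Hg_prod3 hwc hwc hw Z Z X
  have s1 : Hg (prod (prod wc wc) w) (fun p => ((Z p.1.1, Z p.1.2), X p.2)) +
      Hg (prod (prod wc wc) w) (fun p => Z p.1.1 - Z p.1.2) ≤
      Hg (prod (prod wc wc) w) (fun p => (Z p.1.1 - X p.2, X p.2 - Z p.1.2)) +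
      Hg (prod (prod wc wc) w) (fun p => (Z p.1.1, Z p.1.2)) := by
    refine Hg_sub_of hl ?_ ?_ ?_
    · intro p q h
      simp only [Prod.mk.injEq] at h
      have e1 : ∀ a b c : G, a - b = (a - c) + (c - b) := fun a b c => by abel
      rw [e1 _ _ (X p.2), e1 (Z q.1.1) _ (X q.2), h.1, h.2]
    · intro p q h
      simp only [Prod.mk.injEq] at h
      rw [h.1, h.2]
    · intro p q h3 h4
      simp only [Prod.mk.injEq] at h3 h4
      have h5 := h3.1
      rw [h4.1] at h5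
      exact Prod.ext (Prod.ext h4.1 h4.2) (sub_right_inj.1 h5)
  have s2 : Hg (prod (prod wc wc) w) (fun p => (Z p.1.1 - X p.2, X p.2 - Z p.1.2)) +
      Hg (prod (prod wc wc) w) (fun p => (X p.2 : G ⧸ W)) ≤
      Hg (prod (prod wc wc) w) (fun p => Z p.1.1 - X p.2) +
      Hg (prod (prod wc wc) w) (fun p => X p.2 - Z p.1.2) := by
    refine Hg_sub_of hl ?_ ?_ ?_
    · intro p q h
      have e1 : ∀ a b : G, (b : G ⧸ W) = (a : G ⧸ W) - ((a - b : G) : G ⧸ W) := by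
        intro a b
        rw [QuotientAddGroup.mk_sub, sub_sub_cancel]
      rw [e1 (Z p.1.1) (X p.2), e1 (Z q.1.1) (X q.2), h, hZ p.1.1 q.1.1]
    · intro p q h
      have e1 : ∀ a b : G, (b : G ⧸ W) = (a : G ⧸ W) + ((b - a : G) : G ⧸ W) := by
        intro a b
        rw [QuotientAddGroup.mk_sub, add_sub_cancel]
      rw [e1 (Z p.1.2) (X p.2), e1 (Z q.1.2) (X q.2), h, hZ p.1.2 q.1.2]
    · intro p q h3 h4
      exact Prod.ext h3 h4
  have s3 : Hg (prod (prod wc wc) w) (fun p => Z p.1.1 - X p.2) =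
      Hg (prod w wc) (fun p => X p.1 - Z p.2) := by
    rw [Hg_13 hwc hwc hw (fun p : Ωc × Ω => Z p.1 - X p.2), Hg_swap hwc hw]
    refine Hg_congr fun p q => ?_
    change Z p.2 - X p.1 = Z q.2 - X q.1 ↔ _
    rw [← neg_sub (X p.1) (Z p.2), ← neg_sub (X q.1) (Z q.2), neg_inj]
  have s4 : Hg (prod (prod wc wc) w) (fun p => X p.2 - Z p.1.2) =
      Hg (prod w wc) (fun p => X p.1 - Z p.2) := by
    rw [Hg_23 hwc hwc hw (fun p : Ωc × Ω => X p.2 - Z p.1), Hg_swap hwc hw]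
  have s5 : Hg (prod (prod wc wc) w) (fun p => (X p.2 : G ⧸ W)) =
      Hg w (fun ω => (X ω : G ⧸ W)) := Hg_snd (law_prod hwc hwc) hw (fun ω => (X ω : G ⧸ W))
  have s6 : Hg (prod (prod wc wc) w) (fun p => (Z p.1.1, Z p.1.2)) = Hg wc Z + Hg wc Z := by
    rw [Hg_12 hwc hwc hw (fun p : Ωc × Ωc => (Z p.1, Z p.2)), Hg_prod hwc hwc]
  have s7 : Hg (prod (prod wc wc) w) (fun p => Z p.1.1 - Z p.1.2) =
      Hg (prod wc wc) (fun p => Z p.1 - Z p.2) :=
    Hg_12 hwc hwc hw (fun p : Ωc × Ωc => Z p.1 - Z p.2)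
  linarith

/-- a Ruzsa triangle inequality modulo a subgroup -/
theorem tri {w : Ω → ℝ} {wc : Ωc → ℝ} (hw : Law w) (hwc : Law wc) (X : Ω → G) (Z : Ωc → G)
    (W : AddSubgroup G) :
    Hg w (fun ω => (X ω : G ⧸ W)) + Hg wc Z ≤
      Hg (prod w wc) (fun p => X p.1 - Z p.2) + Hg wc (fun ω => (Z ω : G ⧸ W)) := by
  have hl := law_prod hw hwc
  have s1 : Hg (prod w wc) (fun p => (X p.1, Z p.2)) +
      Hg (prod w wc) (fun p => (X p.1 : G ⧸ W)) ≤
      Hg (prod w wc) (fun p => (X p.1 - Z p.2, (Z p.2 : G ⧸ W))) +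
      Hg (prod w wc) (fun p => X p.1) := by
    refine Hg_sub_of hl ?_ ?_ ?_
    · intro p q h
      simp only [Prod.mk.injEq] at h
      have e1 : ∀ a b : G, (a : G ⧸ W) = ((a - b : G) : G ⧸ W) + (b : G ⧸ W) := by
        intro a b
        rw [QuotientAddGroup.mk_sub, sub_add_cancel]
      rw [e1 (X p.1) (Z p.2), e1 (X q.1) (Z q.2), h.1, h.2]
    · intro p q h
      rw [h]
    · intro p q h3 h4
      simp only [Prod.mk.injEq] at h3
      have h5 := h3.1
      rw [h4] at h5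
      exact Prod.ext h4 (sub_right_inj.1 h5)
  have s2 := Hg_add_of hl (X := fun p : Ω × Ωc => X p.1 - Z p.2)
    (Y := fun p : Ω × Ωc => (Z p.2 : G ⧸ W))
    (W := fun p : Ω × Ωc => (X p.1 - Z p.2, (Z p.2 : G ⧸ W))) (fun p q h3 h4 => Prod.ext h3 h4)
  have s3 := Hg_prod hw hwc X Z
  have s4 : Hg (prod w wc) (fun p => (X p.1 : G ⧸ W)) = Hg w (fun ω => (X ω : G ⧸ W)) :=
    Hg_fst hw hwc (fun ω => (X ω : G ⧸ W))
  have s5 : Hg (prod w wc) (fun p => X p.1) = Hg w X := Hg_fst hw hwc X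
  have s6 : Hg (prod w wc) (fun p => (Z p.2 : G ⧸ W)) = Hg wc (fun ω => (Z ω : G ⧸ W)) :=
    Hg_snd hw hwc (fun ω => (Z ω : G ⧸ W))
  linarith

/-- entropic PFR for a variable with values in a coset of a finite group of exponent 2 -/
theorem pfr_coset {wc : Ωc → ℝ} (hwc : Law wc) (Z : Ωc → G) (W : AddSubgroup G) [Finite W]
    (hW : ∀ x ∈ W, x + x = 0) (hZ : ∀ ω ω', (Z ω : G ⧸ W) = Z ω') :
    ∃ W' ≤ W, 2 * Hg wc (fun ω => (Z ω : G ⧸ W')) + Real.log (Nat.card W') - Hg wc Z ≤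
      22 * (Hg (prod wc wc) (fun p => Z p.1 - Z p.2) - Hg wc Z) := by
  have : Fintype W := Fintype.ofFinite W
  obtain ⟨ω₀⟩ := law_nonempty hwc
  have hmem : ∀ ω, Z ω - Z ω₀ ∈ W := by
    intro ω
    have h1 := hZ ω₀ ω
    rw [QuotientAddGroup.eq] at h1
    have h2 : Z ω - Z ω₀ = -Z ω₀ + Z ω := by abel
    rw [h2]
    exact h1
  set T : Ωc → W := fun ω => ⟨Z ω - Z ω₀, hmem ω⟩ with hT
  have hτ : Law (push wc T) := law_push hwc T
  obtain ⟨G', hG'⟩ := pfr2d (V := W) (fun x => Subtype.ext (hW x x.2)) hτ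
  have hTZ : ∀ ω ω', T ω = T ω' ↔ Z ω = Z ω' := by
    intro ω ω'
    rw [Subtype.ext_iff]
    change Z ω - Z ω₀ = Z ω' - Z ω₀ ↔ _
    exact sub_left_inj
  have e1 : ent (push wc T) = Hg wc Z := by
    rw [← Hg_congr hTZ, Hg_eq_H]
    rfl
  have e2 : ent (conv (push wc T) (push wc T)) = Hg (prod wc wc) (fun p => Z p.1 - Z p.2) := by
    unfold conv
    rw [prod_push, push_push]
    have h1 : ent (push (prod wc wc) (fun p : Ωc × Ωc => T p.1 + T p.2)) =
        Hg (prod wc wc) (fun p : Ωc × Ωc => T p.1 + T p.2) := by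
      rw [Hg_eq_H]
      rfl
    rw [h1]
    refine Hg_congr fun p q => ?_
    have h2 : ∀ p : Ωc × Ωc, ((T p.1 + T p.2 : W) : G) = Z p.1 - Z p.2 := by
      intro p
      have h3 : (T p.2 : G) + T p.2 = 0 := hW _ (T p.2).2
      have h4 : ((T p.1 + T p.2 : W) : G) = (T p.1 : G) - T p.2 + (T p.2 + T p.2) := by
        push_cast
        abel
      rw [h4, h3, add_zero]
      change Z p.1 - Z ω₀ - (Z p.2 - Z ω₀) = _
      abel
    rw [Subtype.ext_iff, h2, h2]
  refine ⟨G'.map W.subtype, ?_, ?_⟩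
  · intro x hx
    obtain ⟨t, _, rfl⟩ := AddSubgroup.mem_map.1 hx
    exact t.2
  · have hcard : Nat.card (G'.map W.subtype) = Nat.card G' :=
      AddSubgroup.card_map_of_injective W.subtype_injective
    have e3 : entMod (push wc T) G' = Hg wc (fun ω => (Z ω : G ⧸ G'.map W.subtype)) := by
      unfold entMod
      rw [H_push, ← Hg_eq_H]
      refine Hg_congr fun ω ω' => ?_
      rw [QuotientAddGroup.eq, QuotientAddGroup.eq]
      have h1 : -Z ω + Z ω' = ((-T ω + T ω' : W) : G) := by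
        push_cast
        change _ = -(Z ω - Z ω₀) + (Z ω' - Z ω₀)
        abel
      rw [h1]
      constructor
      · intro h
        exact AddSubgroup.mem_map.2 ⟨_, h, rfl⟩
      · intro h
        obtain ⟨u, hu, hu2⟩ := AddSubgroup.mem_map.1 h
        have : u = -T ω + T ω' := Subtype.ext hu2
        rw [← this]
        exact hu
    rw [hcard]
    rw [e1, e2, e3] at hG'
    exact hG'

/-- **Stage lemma.** -/
theorem stage {w : Ω → ℝ} (hw : Law w) (X : Ω → G) (W : AddSubgroup G) [Finite W]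
    (hW : ∀ x ∈ W, x + x = 0) :
    ∃ W' ≤ W, 2 * Hg w (fun ω => (X ω : G ⧸ W')) + Real.log (Nat.card W') ≤
      Hg w X + Hg w (fun ω => (X ω : G ⧸ W)) +
        46 * (kap w X - kap w (fun ω => (X ω : G ⧸ W))) := by
  obtain ⟨C, hC⟩ := exists_code hw (fun ω => (X ω : G ⧸ W))
  obtain ⟨c, hc, hsel⟩ := select hw X C
  have hwc := law_cw hw C hc
  have hZ : ∀ ω ω' : {ω : Ω // C ω = c}, ((fun ω : {ω : Ω // C ω = c} => X ω.1) ω : G ⧸ W) =
      ((fun ω : {ω : Ω // C ω = c} => X ω.1) ω' : G) := by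
    intro ω ω'
    exact (hC _ _).2 (ω.2.trans ω'.2.symm)
  obtain ⟨W', hW', hpfr⟩ := pfr_coset hwc (fun ω : {ω : Ω // C ω = c} => X ω.1) W hW hZ
  have hdbl := fibre_dbl hw hwc X (fun ω : {ω : Ω // C ω = c} => X ω.1) W hZ
  have htri := tri hw hwc X (fun ω : {ω : Ω // C ω = c} => X ω.1) W'
  have hfib := fibring hw X (QuotientAddGroup.mk' W)
  have g1 : Hg w C = Hg w (fun ω => (X ω : G ⧸ W)) := (Hg_congr hC).symm
  have g2 : Hg (prod w w) (fun p => (X p.1 - X p.2, C p.2)) =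
      Hg (prod w w) (fun p => (X p.1 - X p.2, (X p.2 : G ⧸ W))) :=
    Hg_congr fun p q => by simp only [Prod.mk.injEq, hC]
  have g3 : Hg w (fun ω => (X ω, C ω)) = Hg w X :=
    Hg_congr fun ω ω' => by
      simp only [Prod.mk.injEq, ← hC]
      constructor
      · intro h
        exact h.1
      · intro h
        exact ⟨h, by rw [h]⟩
  rw [g1, g2, g3] at hsel
  have g4 : Hg (prod w w) (fun p => (X p.1 - X p.2, (X p.2 : G ⧸ W))) ≤
      Hg w X + Hg w (fun ω => (X ω : G ⧸ W)) + (kap w X - kap w (fun ω => (X ω : G ⧸ W))) := hfib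
  refine ⟨W', hW', ?_⟩
  linarith

end H137.Weak
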